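import Pool.Agent.Helper75.PX.Stmts6

set_option autoImplicit false

universe u

open Module TensorProduct

namespace Pool.Agent.Helper75.PX

theorem I4b_cancel {K A : Type u} [Field K] [Ring A] [Algebra K A] (z β x : A) (p b : K)
    (hzz : z * z = p • β) (hbb : β * β = β + algebraMap K A b) (hp : p ≠ 0) (hb : b ≠ 0)
    (h : x * z = 0) : x = 0 := by
  have h1 : p • (x * β) = 0 := by
    rw [← mul_smul_comm, ← hzz, ← mul_assoc, h, zero_mul]
  have h2 : x * β = 0 := by
    rcases smul_eq_zero.1 h1 with h | h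
    · exact absurd h hp
    · exact h
  have h3 : b • x = 0 := by
    calc b • x = x * (β * β - β) := by
          rw [hbb, add_sub_cancel_left, ← Algebra.commutes, ← Algebra.smul_def]
      _ = (x * β) * β - x * β := by rw [mul_sub, mul_assoc]
      _ = 0 := by rw [h2, zero_mul, sub_zero]
  rcases smul_eq_zero.1 h3 with h | h
  · exact absurd h hb
  · exact h

theorem I4b_one {K A : Type u} [Field K] [Ring A] [Algebra K A] [Nontrivial A] (t : K)
    (h : t • (1 : A) = 0) : t = 0 := by
  rcases smul_eq_zero.1 h with h | h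
  · exact h
  · exact absurd h one_ne_zero

theorem I4b_two {K A : Type u} [Field K] [Ring A] [Algebra K A] [Nontrivial A]
    (α β w : A) (a r s t : K) (hwb : w * β = (β + 1) * w) (hww : w * w = r • α)
    (haa : α * α = α + algebraMap K A a) (hr : r ≠ 0) (ha : a ≠ 0)
    (h : s • (1 : A) + t • β = 0) : s = 0 ∧ t = 0 := by
  have h1 : w * (s • (1 : A) + t • β) = (s • (1 : A) + t • β + t • (1 : A)) * w := by
    simp only [mul_add, add_mul, mul_smul_comm, smul_mul_assoc, mul_one, one_mul, hwb, smul_add]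
    abel
  rw [h, mul_zero, zero_add] at h1
  have h2 : t = 0 := I4b_one t (I4b_cancel w α _ r a hww haa hr ha h1.symm)
  subst h2
  rw [zero_smul, add_zero] at h
  exact ⟨I4b_one s h, rfl⟩

theorem st_I4b : ST_I4b.{u} := by
  intro K A _ _ _ _ α β z w a b p r v _ D t ht
  simp only [uE] at ht
  have e1 : z * (t 0 • (1 : A) + t 1 • α + t 2 • β + t 3 • (α * β)) =
      ((t 0 • (1 : A) + t 1 • α + t 2 • β + t 3 • (α * β)) + (t 1 • (1 : A) + t 3 • β)) * z := by
    have h3 : z * (α * β) = α * β * z + β * z := by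
      rw [← mul_assoc, D.hza, mul_assoc, D.hzb, ← mul_assoc, add_mul, one_mul, add_mul]
    simp only [mul_add, add_mul, mul_smul_comm, smul_mul_assoc, mul_one, one_mul, D.hza,
      D.hzb, h3, smul_add]
    abel
  rw [ht, mul_zero, zero_add] at e1
  have e2 := I4b_cancel z β _ p b D.hzz D.hbb D.p0 D.b0 e1.symm
  obtain ⟨q1, q3⟩ := I4b_two α β w a r _ _ D.hwb D.hww D.haa D.r0 D.a0 e2
  rw [q1, q3, zero_smul, zero_smul, add_zero, add_zero] at ht
  obtain ⟨q0, q2⟩ := I4b_two α β w a r _ _ D.hwb D.hww D.haa D.r0 D.a0 ht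
  funext i
  fin_cases i
  · exact q0
  · exact q1
  · exact q2
  · exact q3

end Pool.Agent.Helper75.PX
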